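import Mathlib
import Pool.Agent.U150.XG.Mq

/-!
# Ranks over every multiquadratic field of the successive prime twists of every member of the twist
# classes of the elliptic curves with a rational point of order two

Let `K = ℚ(√d : d ∈ S)` be any multiquadratic number field (`S` a finite set of nonzero integers, positive or
negative; for example `K = ℚ` or any quadratic field), `M` the product of the elements of `S`, and
`E : y² = x³ + a x² + b x` with integers `a`, `b` such that neither `b` nor `c = a² - 4 b` is a square. `E_N`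
is the quadratic twist of `E` by `N` in the short form of the problem (`y² = x³ + A N² x + B N³`,
`A = 27 (3 b - a²)`, `B = 27 (2 a³ - 9 a b)`), and `E_N^T` the twist of `E_N` by `∏_{d ∈ T} d` over `ℚ`, for
`T ⊆ S`. A prime is split if it is `1` modulo `8` and a nonzero square modulo all the odd primes dividing
`b c M`, and inert if it is odd, does not divide `M` and neither `b` nor `c` is a square modulo it. (These are
the split and the inert primes `Res`, `Inert` of the twist `y² = x³ + a M x² + b M² x`, in the definitions of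
`MP_6073f3_nt.SuccessivePrimeTwists`, which we use.)

`D` is ANY (fixed) product of different split and inert primes. We twist `E_D` successively by primes
`p_k, …, p_0` in given residue classes of split or inert primes, the last one inert (`N = D p_k ⋯ p_0`), and take
means over the primes `p_0` up to `X`, `X → ∞`, then over `p_1`, …, at last over `p_k`. Let `s_T` be the Selmer
rank of the twist of `E` by `∏_{d ∈ T} d` and `R₀` the sum of all `s_T`, `T ⊆ S`. Let `P` be the law of the Markov
chain `r → r - 1` with probability `1 - 2 ^ -r`, `r → r` and `r → r + 1` with probability `2 ^ -(r + 1)`, after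
`t` steps, `t` the number of the split primes among `p_1, …, p_k`; the first law is the law of the corank of the
explicit matrix of `D` plus a random diagonal matrix over the field with two elements. Then for every `D`:

* for every `r` the iterated density of the `N` such that the Selmer rank of `E_N^T` is `s_T + 2 r` for ALL
  `T ⊆ S` is `P(r)`: the Selmer ranks of the `2 ^ |S|` twists move together;
* `rank E_N(K) ≤ R₀ + 2 ^ (|S| + 1) j` with iterated lower density at least `P(0) + ⋯ + P(j)`;
* if `R₀ = 0`, the iterated density of the `N` such that `rank E_N(K) = 0` and all the `E_N^T` have finite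
  `E_N^T(ℚ)` and `Ш(E_N^T/ℚ)[2^∞] = 0` is `P(0)`;
* the iterated upper mean of `rank E_N(K)` is at most `R₀ + 2 ^ (|S| + 1) m`, `m` the mean of `P`;
* `P(0) ≥ 2 ^ -(n + t)`, `n` the number of the split primes of `D`;
  `|P(0) - c_0| ≤ ∏_{1 ≤ i ≤ n} (2 ^ i - 1) / 2 ^ t`, `c_0 = ∏ (1 - 2^{-(2i+1)}) = 0.4194…`; and if infinitely many
  of the given classes are classes of split primes, then the iterated upper mean of `rank E_N(K)` is at most
  `R₀ + 1.53 · 2 ^ |S|` for all large `k`, for every `D`.

Authors: helper150 (this file and `U150/XG`), helper79 (all the twists have one corank, ranks over multiquadratic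
fields, `U79/MO`, `U79/TF`, definitions in `MP_81dc49_nt.RanksOverMultiquadraticFields`), helper687 (the Markov
chain of the symmetric matrices over the field with two elements, `U687/Q2`), helper115, helper171, helper295,
helper439, helper2, helper643, helper674, helper234, helper158, helper998, helper798, helper756, helper958,
helper388, helper796, helper739, helper80 (the descent for the class of the twists, projects GD and GE).
-/

set_option autoImplicit false

open scoped Classical ENNReal

namespace Pool.Agent.Results.MP_7cad78_nt.PrimeTwistsMultiquadratic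

open Filter
open Pool.Agent.TH841.NF.D (rk)
open Pool.Agent.Results.MP_6073f3_nt.SuccessivePrimeTwists (Res Member Given lowerMean
  upperMean indicator Density split splitSteps chain c)
open Pool.Agent.Results.MP_788af2_nt.AverageRankPrimeTwists (chainMean)
open Pool.Agent.Results.MP_81dc49_nt.RanksOverMultiquadraticFields (E s R₀ twist TrivialTwo)

/-- the first coefficient of the twist of `y² = x³ + a x² + b x` by the product of `S` -/
def A (a : ℤ) (S : Finset ℤ) : ℤ := a * ∏ d ∈ S, d

/-- the second coefficient of the twist of `y² = x³ + a x² + b x` by the product of `S` -/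
def B (b : ℤ) (S : Finset ℤ) : ℤ := b * (∏ d ∈ S, d) ^ 2

/-- `K` is the field generated by the square roots `r d` of the elements `d` of `S` -/
def Generates (S : Finset ℤ) (K : Type) [Field K] [NumberField K] (r : ℤ → K) : Prop :=
  (∀ d ∈ S, r d ^ 2 = (d : K)) ∧ IntermediateField.adjoin ℚ (r '' (S : Set ℤ)) = ⊤

/-- the rank of `E_N` over `K` -/
noncomputable def rankOver (a b : ℤ) (K : Type) [Field K] [NumberField K] (N : ℕ) : ℝ≥0∞ :=
  (rk (E a b N K) : ℝ≥0∞)

/-- **Ranks over multiquadratic fields of the successive prime twists.** -/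
theorem result (S : Finset ℤ) (hS : ∀ d ∈ S, d ≠ 0) (a b : ℤ) (hb : ¬ IsSquare b)
    (hc : ¬ IsSquare (a ^ 2 - 4 * b)) (q : ℕ → ℕ) (hq : Given (A a S) (B b S) q) :
    (∀ (k D : ℕ), Member (A a S) (B b S) D →
      Res (A a S) (B b S) (D * ∏ i ∈ Finset.range (k + 1), q i) →
      (∀ r : ℕ, Density (A a S) (B b S) q (fun N => ∀ T ⊆ S,
        s (a * (∏ d ∈ T, d) * N) (b * (∏ d ∈ T, d) ^ 2 * N ^ 2) =
          s (a * ∏ d ∈ T, d) (b * (∏ d ∈ T, d) ^ 2) + 2 * r) k D
        (chain (A a S) (B b S) q k D r)) ∧
      (∀ (K : Type) [Field K] [NumberField K] (r : ℤ → K), Generates S K r →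
        (∀ j : ℕ, ENNReal.ofReal (∑ i ∈ Finset.range (j + 1), chain (A a S) (B b S) q k D i) ≤
          lowerMean (A a S) (B b S) q
            (indicator fun N => rk (E a b N K) ≤ R₀ a b S + 2 ^ (S.card + 1) * j) (k + 1) D) ∧
        (R₀ a b S = 0 → Density (A a S) (B b S) q (fun N => rk (E a b N K) = 0 ∧
          ∀ T ⊆ S, TrivialTwo (twist a b (∏ d ∈ T, d) N)) k D (chain (A a S) (B b S) q k D 0)) ∧
        upperMean (A a S) (B b S) q (rankOver a b K) (k + 1) D ≤
          ENNReal.ofReal (R₀ a b S + 2 ^ (S.card + 1) * chainMean (A a S) (B b S) q k D)) ∧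
      (1 / 2 : ℝ) ^ ((split (A a S) (B b S) D).card + splitSteps (A a S) (B b S) q k) ≤
        chain (A a S) (B b S) q k D 0 ∧
      |chain (A a S) (B b S) q k D 0 - c 0| ≤
        (∏ i ∈ Finset.range (split (A a S) (B b S) D).card, ((2 : ℝ) ^ (i + 1) - 1)) /
          2 ^ splitSteps (A a S) (B b S) q k) ∧
    ((∃ᶠ i in atTop, Res (A a S) (B b S) (q i)) → ∀ D : ℕ, Member (A a S) (B b S) D →
      ∀ᶠ k in atTop, Res (A a S) (B b S) (D * ∏ i ∈ Finset.range (k + 1), q i) →
        ∀ (K : Type) [Field K] [NumberField K] (r : ℤ → K), Generates S K r →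
          upperMean (A a S) (B b S) q (rankOver a b K) (k + 1) D ≤
            ENNReal.ofReal (R₀ a b S + 1.53 * 2 ^ S.card)) ∧
    0.4194 < c 0 ∧ c 0 < 0.4195 := by
  have hM : (∏ d ∈ S, d) ≠ 0 := Finset.prod_ne_zero_iff.2 hS
  have hb' : ¬ IsSquare (B b S) := Pool.Agent.U150.XG.Mq.ns_b hb hM
  have hc' : ¬ IsSquare ((A a S) ^ 2 - 4 * B b S) := Pool.Agent.U150.XG.Mq.ns_c hc hM
  obtain ⟨g1, -, -, l1, l2, -⟩ :=
    Pool.Agent.Results.MP_6073f3_nt.SuccessivePrimeTwists.result (A a S) (B b S) hb' hc' q hq
  obtain ⟨m1, -, m3⟩ :=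
    Pool.Agent.Results.MP_788af2_nt.AverageRankPrimeTwists.result (A a S) (B b S) hb' hc' q hq
  have hbd := fun (N : ℕ) (hN : Pool.Agent.U115.GE.Class (A a S) (B b S) N) =>
    Pool.Agent.U150.XG.Mq.bd (S := S) hb hc hS hN
  have hup : ∀ (k D : ℕ), Member (A a S) (B b S) D →
      Res (A a S) (B b S) (D * ∏ i ∈ Finset.range (k + 1), q i) →
      ∀ (K : Type) [Field K] [NumberField K] (r : ℤ → K), Generates S K r →
        upperMean (A a S) (B b S) q (rankOver a b K) (k + 1) D ≤
          ENNReal.ofReal (R₀ a b S + 2 ^ (S.card + 1) * chainMean (A a S) (B b S) q k D) := by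
    intro k D hD hR K _ _ r hr
    refine Pool.Agent.U150.XG.Mq.up_aff hb' hc' hq (rankOver a b K) (R₀ a b S)
      (2 ^ (S.card + 1)) (Nat.cast_nonneg _) (by positivity) (fun N hN => ?_) k hD hR
    obtain ⟨h1, -, h3⟩ := hbd N hN
    have h4 := h3 K r hr.1 hr.2
    have h5 : Pool.Agent.U115.GE.cork (A a S) (B b S) N = Pool.Agent.U115.GE.cork a b N := h1
    unfold rankOver
    rw [h5, ← ENNReal.ofReal_natCast]
    refine ENNReal.ofReal_le_ofReal ?_
    exact_mod_cast h4
  refine ⟨fun k D hD hR => ⟨fun r => ?_, fun K _ _ r hr => ⟨fun j => ?_, fun hR0 => ?_, ?_⟩, ?_, ?_⟩,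
    fun hF D hD => ?_, l1, l2⟩
  · refine Pool.Agent.Results.MP_6073f3_nt.SuccessivePrimeTwists.dens_of hb' hc' hq _ r
      (fun N hN => ?_) k hD hR
    obtain ⟨h1, h2, -⟩ := hbd N hN
    have h5 : Pool.Agent.U115.GE.cork (A a S) (B b S) N = Pool.Agent.U115.GE.cork a b N := h1
    rw [h5]
    constructor
    · intro h
      have h3 := h ∅ (Finset.empty_subset S)
      rw [(h2 ∅ (Finset.empty_subset S)).1] at h3
      omega
    · intro h T hT
      rw [(h2 T hT).1, h]
  · refine Pool.Agent.U150.XG.Mq.low_sum hb' hc' hq _ j (fun N hN hj => ?_) k hD hR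
    obtain ⟨h1, -, h3⟩ := hbd N hN
    have h5 : Pool.Agent.U115.GE.cork (A a S) (B b S) N = Pool.Agent.U115.GE.cork a b N := h1
    rw [h5] at hj
    exact (h3 K r hr.1 hr.2).trans (Nat.add_le_add_left (Nat.mul_le_mul_left _ hj) _)
  · refine Pool.Agent.Results.MP_6073f3_nt.SuccessivePrimeTwists.dens_of hb' hc' hq _ 0
      (fun N hN => ?_) k hD hR
    obtain ⟨h1, h2, h3⟩ := hbd N hN
    have h5 : Pool.Agent.U115.GE.cork (A a S) (B b S) N = Pool.Agent.U115.GE.cork a b N := h1
    have hs0 : ∀ T ⊆ S, s (a * ∏ d ∈ T, d) (b * (∏ d ∈ T, d) ^ 2) = 0 := by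
      intro T hT
      unfold R₀ at hR0
      exact (Finset.sum_eq_zero_iff.1 hR0) T (Finset.mem_powerset.2 hT)
    rw [h5]
    constructor
    · rintro ⟨-, h⟩
      exact ((h2 ∅ (Finset.empty_subset S)).2 (hs0 ∅ (Finset.empty_subset S))).1
        (h ∅ (Finset.empty_subset S))
    · intro h
      refine ⟨?_, fun T hT => ((h2 T hT).2 (hs0 T hT)).2 h⟩
      have h4 := h3 K r hr.1 hr.2
      rw [h, hR0] at h4
      exact Nat.eq_zero_of_le_zero h4
  · exact hup k D hD hR K r hr
  · exact (g1 k D hD hR).2.2.2.1
  · have h6 := (g1 k D hD hR).2.2.2.2 1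
    rwa [Finset.sum_range_one, Finset.sum_range_one] at h6
  · have hst := Pool.Agent.Results.MP_6073f3_nt.SuccessivePrimeTwists.steps_tendsto q hF
    set Bn : ℝ := ∏ i ∈ Finset.range (split (A a S) (B b S) D).card, ((2 : ℝ) ^ (i + 1) - 1) with hBn
    have h3 : Tendsto (fun m : ℕ => 4 * (Bn / 2 ^ m)) atTop (nhds 0) := by
      have h4 := (tendsto_pow_atTop_nhds_zero_of_lt_one (r := (1 / 2 : ℝ)) (by norm_num)
        (by norm_num)).const_mul (4 * Bn)
      rw [mul_zero] at h4
      refine h4.congr fun m => ?_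
      rw [one_div, inv_pow]
      ring
    have h5 := (h3.comp hst).eventually_lt_const (show (0 : ℝ) < 0.0001 by norm_num)
    filter_upwards [h5] with k hk5 hR K _ _ r hr
    refine (hup k D hD hR K r hr).trans (ENNReal.ofReal_le_ofReal ?_)
    have h7 := (m1 k D hD hR).2.2.2
    have h8 : 4 * (Bn / 2 ^ splitSteps (A a S) (B b S) q k) < 0.0001 := hk5
    have h9 := (abs_le.1 h7).2
    have h10 : chainMean (A a S) (B b S) q k D ≤ 0.765 := by
      norm_num at h8 m3 h9 ⊢
      linarith
    have h11 : (0 : ℝ) < 2 ^ (S.card + 1) := by positivity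
    have h12 : (2 : ℝ) ^ (S.card + 1) * chainMean (A a S) (B b S) q k D ≤
        2 ^ (S.card + 1) * 0.765 := mul_le_mul_of_nonneg_left h10 h11.le
    have h13 : (2 : ℝ) ^ (S.card + 1) * 0.765 = 1.53 * 2 ^ S.card := by
      rw [pow_succ]
      ring
    linarith

end Pool.Agent.Results.MP_7cad78_nt.PrimeTwistsMultiquadratic
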