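import Pool.Agent.U695.XH.Sum
import Pool.Agent.U695.XR.Cls
import Pool.Agent.U695.XR.Dec
import Pool.Agent.U695.XR.Des2
import Pool.Agent.U695.XR.Ev

/-!
# The ranks of the quadratic twists `y² = x³ - D² x` over `ℚ(i)`

Let `K = ℚ(i)`. For a squarefree Gaussian integer `D` let `E_D` be the quadratic twist `y² = x³ - D² x`
of the curve `y² = x³ - x`. It has complex multiplication by `ℤ[i]` over `K`, so that its rank over `K` is
even. Let `Family` be the set of the primary squarefree `D`: every squarefree ideal of `ℤ[i]` of odd norm has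
exactly one primary generator. We order by the norm.

A decomposition of `D` is an ordered pair `(d, d')` of primary elements with `D = d d'` such that `d'` is a
square modulo `d` and `d` is a square modulo `d'`; `(1, D)` and `(D, 1)` are always decompositions.

* ONE TWIST. For every `D ≠ 1` in the family the number of the decompositions is `2 ^ (r + 1)` for some
  `r ≥ 0`, and `E_D(K)` is finitely generated of even rank at most `2 r` if the norm of `D` is `5` modulo `8`,
  and at most `2 r + 2` in general. (The descent by the endomorphism `1 + i`.)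
* THE EXACT LAW. Let `c = ∏_{i ≥ 0} (1 - 2 ^ (- 2 i - 1)) = 0.4194...` and
  `law r = c / ((2 - 1) (4 - 1) ⋯ (2 ^ r - 1))`. The proportion of the `D` in the family with
  exactly `2 ^ (r + 1)` decompositions tends to `law r`, for every `r`, and this is true for each of the
  four residue classes `1, 5, 9, 13` of the norm modulo `16`. These numbers sum to one: this is the
  law of the corank of a large random symmetric matrix over the field with two elements.
* THE RANKS. So for every `ε > 0` there is an `R` such that the rank of `E_D(K)` is at most `R` for at least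
  the proportion `1 - ε` of the family. The rank is at most `0, 2, 4, 6` for at least
  `20.9 %, 62.9 %, 90.8 %, 98.8 %` of the family, and for at least
  `41.9 %, 83.8 %, 97.8 %, 99.8 %` of the `D` with norm `5` modulo `8`. Among ALL squarefree
  Gaussian integers (all units, even norms too; `D` and `- D` give the same curve) the rank is at most `R`
  for a lower proportion of at least `1/3 - ε`.

The proof: the descent by the endomorphism `1 + i` (the local conditions are from the library, `Y699`, the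
Mordell-Weil theorem from `Q286`), and the law of the kernel of the Laplacian of the quadratic symbols between
all prime factors of `D` over `ℤ[i]`, a transport to `ℤ[i]` of the library projects XK and XL for the cubic
symbols over `ℤ[ω]`. For `r = 0` and norm `5` modulo `8` the law is in
`MP_1a91b9_nt.ExactShareGaussianTwists`.
-/

set_option autoImplicit false

open scoped Classical

namespace Pool.Agent.Results.MP_7cad78_nt.GaussianTwistRanks

open Filter NumberField

/-- The curve `y² = x³ - D² x` over the field `K` with ring of integers `ℤ[i]`. -/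
noncomputable def twist {K : Type} [Field K] [NumberField K] (e : GaussianInt ≃+* 𝓞 K)
    (D : GaussianInt) : WeierstrassCurve K :=
  ⟨0, 0, 0, -(algebraMap (𝓞 K) K (e D)) ^ 2, 0⟩

/-- `D ≡ 1 mod 2 + 2i`. -/
def Primary (D : GaussianInt) : Prop := (⟨2, 2⟩ : GaussianInt) ∣ D - 1

/-- `a` is a square modulo `m` -/
def SquareModulo (a m : GaussianInt) : Prop := ∃ b : GaussianInt, m ∣ a - b ^ 2

/-- the ordered decompositions `D = d d'` into primary elements which are squares modulo each other -/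
def decompositions (D : GaussianInt) : Set (GaussianInt × GaussianInt) :=
  {p | Primary p.1 ∧ Primary p.2 ∧ D = p.1 * p.2 ∧ SquareModulo p.2 p.1 ∧ SquareModulo p.1 p.2}

/-- the primary squarefree Gaussian integers -/
def Family : Set GaussianInt := {D | Primary D ∧ Squarefree D}

/-- `D` has exactly `2 ^ (r + 1)` decompositions -/
def Decomposes (r : ℕ) (D : GaussianInt) : Prop := (decompositions D).ncard = 2 ^ (r + 1)

/-- for `K = ℚ(i)` (every number field `K` with an isomorphism `e` of `ℤ[i]` with its ring of integers) the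
group of the points of `y² = x³ - D² x` over `K` is finitely generated, its rank is even and at most `n` -/
def RankAtMost (n : ℕ) (D : GaussianInt) : Prop :=
  ∀ (K : Type) [Field K] [NumberField K] [DecidableEq K] (e : GaussianInt ≃+* 𝓞 K),
    Module.Finite ℤ (twist e D).toAffine.Point ∧
      Even (Module.finrank ℤ (twist e D).toAffine.Point) ∧
      Module.finrank ℤ (twist e D).toAffine.Point ≤ n

/-- the number of the elements of norm at most `X` of a set of Gaussian integers -/
noncomputable def count (S : Set GaussianInt) (X : ℕ) : ℕ := {D : GaussianInt | D ∈ S ∧ D.norm ≤ X}.ncard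

/-- the proportion of the elements with the property `T` among the elements of `S` of norm at most `X` -/
noncomputable def proportion (S : Set GaussianInt) (T : GaussianInt → Prop) (X : ℕ) : ℝ :=
  (count {D | D ∈ S ∧ T D} X : ℝ) / (count S X : ℝ)

/-- the constant `(1 - 1/2) (1 - 1/8) (1 - 1/32) ⋯` -/
noncomputable def c : ℝ := ∏' i : ℕ, (1 - (1 / 2 : ℝ) ^ (2 * i + 1))

/-- the numbers `c / ((2 - 1) (4 - 1) ⋯ (2 ^ r - 1))` -/
noncomputable def law (r : ℕ) : ℝ := c / ∏ i ∈ Finset.range r, ((2 : ℝ) ^ (i + 1) - 1)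

section proof
open Pool.Agent.U695.XG Pool.Agent.U695.XH
open Pool.Agent.U695.XR (Wa)
open Pool.Agent.U695.XR.Dec (Dcp card_dcp nS_succ)
open Pool.Agent.Y699 (PS PD SB)
open H385 (nrm)

theorem le_iff (D : GaussianInt) (X : ℕ) : D.norm ≤ X ↔ nrm D ≤ X := by
  rw [← Pool.Agent.Y699.nrm_cast D]
  exact Nat.cast_le

theorem ps_iff {D : GaussianInt} : PS D ↔ D ∈ Family := by
  constructor
  · rintro ⟨h1, h2⟩
    exact ⟨(Pool.Agent.W164.RC.prim_iff_dvd D).1 h1, h2⟩
  · rintro ⟨h1, h2⟩
    exact ⟨(Pool.Agent.W164.RC.prim_iff_dvd D).2 h1, h2⟩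

theorem mod4 {D : GaussianInt} (h : PS D) : nrm D % 4 = 1 := Lt.nrm_mod4 h.prm

theorem el_all (D : GaussianInt) : D ∈ Family ↔ NSf.El {1, 5, 9, 13} D := by
  rw [← ps_iff]
  constructor
  · intro h
    refine ⟨h, ?_⟩
    have h1 := mod4 h
    simp only [Finset.mem_insert, Finset.mem_singleton]
    omega
  · exact fun h => h.1

theorem el_class (a : ℕ) (D : GaussianInt) :
    D ∈ {D | D ∈ Family ∧ D.norm % 16 = a} ↔ NSf.El {a} D := by
  show (D ∈ Family ∧ D.norm % 16 = a) ↔ PS D ∧ nrm D % 16 ∈ ({a} : Finset ℕ)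
  rw [ps_iff, Finset.mem_singleton, ← Pool.Agent.Y699.nrm_cast D]
  refine and_congr_right fun _ => ?_
  omega

theorem el_five (D : GaussianInt) : D ∈ {D | D ∈ Family ∧ D.norm % 8 = 5} ↔ NSf.El {5, 13} D := by
  rw [NSf.el5, ps_iff]
  rfl

theorem el_one (D : GaussianInt) : D ∈ {D | D ∈ Family ∧ D.norm % 8 = 1} ↔ NSf.El {1, 9} D := by
  show (D ∈ Family ∧ D.norm % 8 = 1) ↔ PS D ∧ nrm D % 16 ∈ ({1, 9} : Finset ℕ)
  rw [ps_iff, Finset.mem_insert, Finset.mem_singleton, ← Pool.Agent.Y699.nrm_cast D]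
  refine and_congr_right fun _ => ?_
  omega

theorem dec_iff {D : GaussianInt} (hD : PS D) (r : ℕ) : Decomposes r D ↔ Gr r (PD D) := by
  unfold Decomposes Gr
  rw [← card_dcp hD]
  rfl

theorem cnt {q : Finset ℕ} {S : Set GaussianInt} (hS : ∀ D, D ∈ S ↔ NSf.El q D) (X : ℕ) :
    count S X = (SS q X).card := by
  rw [← NSf.card_el]
  unfold count
  congr 1
  ext D
  constructor
  · rintro ⟨h1, h2⟩
    exact ⟨(le_iff D X).1 h2, (hS D).1 h1⟩
  · rintro ⟨h1, h2⟩
    exact ⟨(hS D).2 h2, (le_iff D X).2 h1⟩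

theorem cnt_dec {q : Finset ℕ} {S : Set GaussianInt} (hS : ∀ D, D ∈ S ↔ NSf.El q D) (r X : ℕ) :
    count {D | D ∈ S ∧ Decomposes r D} X = ((SS q X).filter (Gr r)).card := by
  rw [← NSf.card_eq]
  unfold count
  congr 1
  ext D
  constructor
  · rintro ⟨⟨h1, h3⟩, h2⟩
    have h4 := (hS D).1 h1
    exact ⟨(le_iff D X).1 h2, h4, (dec_iff h4.1 r).1 h3⟩
  · rintro ⟨h1, h2, h3⟩
    exact ⟨⟨(hS D).2 h2, (dec_iff h2.1 r).2 h3⟩, (le_iff D X).2 h1⟩

theorem t_prop {q : Finset ℕ} {S : Set GaussianInt} (hS : ∀ D, D ∈ S ↔ NSf.El q D)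
    (hq : S_LOW q) (r : ℕ) : Tendsto (proportion S (Decomposes r)) atTop (nhds (law r)) := by
  refine (t_law hq r).congr fun X => ?_
  unfold proportion
  rw [cnt hS, cnt_dec hS]

theorem count_sqf (X : ℕ) : count {D | Squarefree D} X = (Dn.Sq X).ncard := by
  unfold count
  congr 1
  ext D
  exact ⟨fun h => ⟨h.1, (le_iff D X).1 h.2⟩, fun h => ⟨h.1, (le_iff D X).2 h.2⟩⟩

theorem fin_count (S : Set GaussianInt) (X : ℕ) : {D : GaussianInt | D ∈ S ∧ D.norm ≤ X}.Finite :=
  (Pool.Agent.Y699.fin_norm_le X).subset fun D h => (le_iff D X).1 h.2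

theorem even_rank {K : Type} [Field K] [NumberField K] [DecidableEq K] (e : GaussianInt ≃+* 𝓞 K)
    {D : GaussianInt} (hD : D ≠ 0) : Module.Finite ℤ (twist e D).toAffine.Point ∧
      Even (Module.finrank ℤ (twist e D).toAffine.Point) := by
  have hδ0 : algebraMap (𝓞 K) K (e D) ≠ 0 := by
    rw [Ne, map_eq_zero_iff _ (IsFractionRing.injective (𝓞 K) K), map_eq_zero_iff _ e.injective]
    exact hD
  obtain ⟨i, hi⟩ : ∃ i : K, i ^ 2 = -1 := by
    refine ⟨algebraMap (𝓞 K) K (e ⟨0, 1⟩), ?_⟩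
    rw [← map_pow, ← map_pow]
    have e1 : (⟨0, 1⟩ : GaussianInt) ^ 2 = -1 := by decide
    rw [e1, map_neg, map_neg, map_one, map_one]
  exact Pool.Agent.U695.XR.even_Wa hi (neg_ne_zero.2 (pow_ne_zero 2 hδ0))

theorem rank_five {D : GaussianInt} (h : D ∈ Family) (h5 : D.norm % 8 = 5) {r : ℕ}
    (hr : Decomposes r D) : RankAtMost (2 * r) D := by
  intro K _ _ _ e
  have h1 := ps_iff.2 h
  obtain ⟨h3, h4⟩ := even_rank e h1.ne
  exact ⟨h3, h4, Pool.Agent.U695.XR.rank_le e h1 h5 ((dec_iff h1 r).1 hr) rfl⟩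

theorem rank_all {D : GaussianInt} (h : D ∈ Family) {r : ℕ}
    (hr : Decomposes r D) : RankAtMost (2 * r + 2) D := by
  intro K _ _ _ e
  have h1 := ps_iff.2 h
  obtain ⟨h3, h4⟩ := even_rank e h1.ne
  exact ⟨h3, h4, Pool.Agent.U695.XR.rank_le_all e h1 ((dec_iff h1 r).1 hr) rfl⟩

theorem rank_mono {m n : ℕ} (h : m ≤ n) {D : GaussianInt} (hD : RankAtMost m D) : RankAtMost n D :=
  fun K _ _ _ e => ⟨(hD K e).1, (hD K e).2.1, (hD K e).2.2.trans h⟩

theorem rank_neg {n : ℕ} {D : GaussianInt} (h : RankAtMost n D) : RankAtMost n (-D) := by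
  intro K _ _ _ e
  have h1 : twist e (-D) = twist e D := by
    unfold twist
    rw [map_neg, map_neg, neg_sq]
  rw [h1]
  exact h K e

/-- the union over the small `s` -/
theorem count_ge {S : Set GaussianInt} {T : GaussianInt → Prop} {m : ℕ}
    (h : ∀ s < m, ∀ D ∈ S, Decomposes s D → T D) (X : ℕ) :
    ∑ s ∈ Finset.range m, count {D | D ∈ S ∧ Decomposes s D} X ≤ count {D | D ∈ S ∧ T D} X := by
  have hfs : ∀ s, {D : GaussianInt | D ∈ {D | D ∈ S ∧ Decomposes s D} ∧ D.norm ≤ X}.Finite :=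
    fun s => fin_count _ X
  set F : ℕ → Finset GaussianInt := fun s => (hfs s).toFinset with hF
  have hdis : ((Finset.range m : Finset ℕ) : Set ℕ).PairwiseDisjoint F := by
    intro s _ t _ hst
    show Disjoint (F s) (F t)
    rw [Finset.disjoint_left]
    intro D hs ht
    rw [hF] at hs ht
    rw [Set.Finite.mem_toFinset] at hs ht
    have h2 : 2 ^ (s + 1) = 2 ^ (t + 1) := hs.1.2.symm.trans ht.1.2
    have h3 := Nat.pow_right_injective (le_refl 2) h2
    exact hst (by omega)
  have h4 : ∀ s, count {D | D ∈ S ∧ Decomposes s D} X = (F s).card := by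
    intro s
    unfold count
    rw [hF, Set.ncard_eq_toFinset_card _ (hfs s)]
  rw [Finset.sum_congr rfl fun s _ => h4 s, ← Finset.card_biUnion hdis, ← Set.ncard_coe_finset]
  refine Set.ncard_le_ncard ?_ (fin_count _ X)
  intro D hD
  rw [Finset.mem_coe, Finset.mem_biUnion] at hD
  obtain ⟨s, hs, hD⟩ := hD
  rw [hF, Set.Finite.mem_toFinset] at hD
  exact ⟨⟨hD.1.1, h s (Finset.mem_range.1 hs) D hD.1.1 hD.1.2⟩, hD.2⟩

/-- the two classes -/
theorem count_add (T : GaussianInt → Prop) (X : ℕ) :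
    count {D | D ∈ {D | D ∈ Family ∧ D.norm % 8 = 5} ∧ T D} X +
      count {D | D ∈ {D | D ∈ Family ∧ D.norm % 8 = 1} ∧ T D} X ≤ count {D | D ∈ Family ∧ T D} X := by
  unfold count
  rw [← Set.ncard_union_eq ?_ (fin_count _ X) (fin_count _ X)]
  · refine Set.ncard_le_ncard ?_ (fin_count _ X)
    rintro D (h | h)
    · exact ⟨⟨h.1.1.1, h.1.2⟩, h.2⟩
    · exact ⟨⟨h.1.1.1, h.1.2⟩, h.2⟩
  · rw [Set.disjoint_left]
    intro D h1 h2
    have h3 := h1.1.1.2
    have h4 := h2.1.1.2
    omega

/-- `D` and `- D` -/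
theorem twice (n X : ℕ) : 2 * count {D | D ∈ Family ∧ RankAtMost n D} X ≤
    count {D | D ∈ {D | Squarefree D} ∧ RankAtMost n D} X := by
  set A : Set GaussianInt := {D | D ∈ {D | D ∈ Family ∧ RankAtMost n D} ∧ D.norm ≤ X} with hA
  have hAf : A.Finite := fin_count _ X
  have h1 : A ∪ (fun D => -D) '' A ⊆
      {D : GaussianInt | D ∈ {D | D ∈ {D | Squarefree D} ∧ RankAtMost n D} ∧ D.norm ≤ X} := by
    rintro D (⟨⟨h1, h2⟩, h3⟩ | ⟨D, ⟨⟨h1, h2⟩, h3⟩, rfl⟩)
    · exact ⟨⟨h1.2, h2⟩, h3⟩
    · refine ⟨⟨?_, rank_neg h2⟩, ?_⟩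
      · exact (Associated.refl D).neg_left.squarefree_iff.2 h1.2
      · show (-D).norm ≤ X
        rw [Zsqrtd.norm_neg]
        exact h3
  have h2 : Disjoint A ((fun D => -D) '' A) := by
    rw [Set.disjoint_left]
    rintro D ⟨⟨⟨h3, -⟩, -⟩, -⟩ ⟨D', ⟨⟨⟨h4, -⟩, -⟩, -⟩, h5⟩
    have h6 : D = -D' := h5.symm
    subst h6
    have h7 := (Pool.Agent.W164.RC.prim_iff_dvd _).2 h3
    have h8 := (Pool.Agent.W164.RC.prim_iff_dvd _).2 h4
    obtain ⟨a1, a2⟩ := h7
    obtain ⟨b1, b2⟩ := h8
    rw [Zsqrtd.re_neg, Zsqrtd.im_neg] at a2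
    omega
  have h3 := Set.ncard_le_ncard h1 (fin_count _ X)
  rw [Set.ncard_union_eq h2 hAf (hAf.image _), Set.ncard_image_of_injective _ neg_injective] at h3
  have e : count {D | D ∈ Family ∧ RankAtMost n D} X = A.ncard := rfl
  rw [e]
  refine le_trans (le_of_eq ?_) h3
  ring

theorem t_sums {q : Finset ℕ} {S : Set GaussianInt} (hS : ∀ D, D ∈ S ↔ NSf.El q D)
    (hq : S_LOW q) (m : ℕ) : Tendsto (fun X : ℕ =>
    ((∑ s ∈ Finset.range m, count {D | D ∈ S ∧ Decomposes s D} X : ℕ) : ℝ) / (count S X : ℝ)) atTop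
      (nhds (∑ s ∈ Finset.range m, law s)) := by
  refine (tendsto_finsetSum (Finset.range m) fun s _ => t_prop hS hq s).congr fun X => ?_
  unfold proportion
  rw [← Finset.sum_div]
  push_cast
  rfl

theorem card_SB (X : ℕ) : count Family X = (SB X).card := by
  rw [cnt el_all, Pool.Agent.U695.XR.Cls.card_all]

theorem half_five : Tendsto (fun X : ℕ => (count {D | D ∈ Family ∧ D.norm % 8 = 5} X : ℝ) /
    (count Family X : ℝ)) atTop (nhds (1 / 2)) := by
  refine Pool.Agent.U695.XR.Cls.ratio_5.congr fun X => ?_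
  rw [cnt el_five, card_SB]

theorem card_one (X : ℕ) : count {D | D ∈ Family ∧ D.norm % 8 = 1} X +
    count {D | D ∈ Family ∧ D.norm % 8 = 5} X = count Family X := by
  unfold count
  rw [← Set.ncard_union_eq ?_ (fin_count _ X) (fin_count _ X)]
  · congr 1
    ext D
    constructor
    · rintro (h | h)
      · exact ⟨h.1.1, h.2⟩
      · exact ⟨h.1.1, h.2⟩
    · intro h
      have h1 := mod4 (ps_iff.2 h.1)
      have h2 := Pool.Agent.Y699.nrm_cast D
      rcases (show nrm D % 8 = 1 ∨ nrm D % 8 = 5 by omega) with h3 | h3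
      · exact Or.inl ⟨⟨h.1, by omega⟩, h.2⟩
      · exact Or.inr ⟨⟨h.1, by omega⟩, h.2⟩
  · rw [Set.disjoint_left]
    intro D h1 h2
    have h3 := h1.1.2
    have h4 := h2.1.2
    omega

theorem half_one : Tendsto (fun X : ℕ => (count {D | D ∈ Family ∧ D.norm % 8 = 1} X : ℝ) /
    (count Family X : ℝ)) atTop (nhds (1 / 2)) := by
  have h1 := half_five.const_sub 1
  have e : (1 : ℝ) - 1 / 2 = 1 / 2 := by norm_num
  rw [e] at h1
  obtain ⟨c', X₀, hc', hlow⟩ := Pool.Agent.U695.XR.Cls.low_all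
  refine h1.congr' ?_
  filter_upwards [eventually_ge_atTop X₀, eventually_ge_atTop 1] with X hX hX1
  have hX0 : (0 : ℝ) < X := by exact_mod_cast hX1
  have hp : (0 : ℝ) < (count Family X : ℝ) := by
    rw [cnt el_all]
    exact lt_of_lt_of_le (by positivity) (hlow X hX)
  rw [← card_one X] at hp ⊢
  push_cast at hp ⊢
  field_simp
  ring

theorem low_one : S_LOW {1, 9} := by
  refine Pool.Agent.U695.XR.Cls.low_of (κ := 1 / 2) (by norm_num) (half_one.congr fun X => ?_)
  rw [cnt el_one, card_SB]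

/-- the lower bound for the family -/
theorem t_fam (r : ℕ) {ε : ℝ} (hε : 0 < ε) : ∀ᶠ X : ℕ in atTop,
    (∑ s ∈ Finset.range (r + 1), law s + ∑ s ∈ Finset.range r, law s) / 2 - ε ≤
      proportion Family (RankAtMost (2 * r)) X := by
  have h1 := ((t_sums el_five NSf.low5 (r + 1)).mul half_five).add
    ((t_sums el_one low_one r).mul half_one)
  have e : (∑ s ∈ Finset.range (r + 1), law s) * (1 / 2) + (∑ s ∈ Finset.range r, law s) * (1 / 2) =
      (∑ s ∈ Finset.range (r + 1), law s + ∑ s ∈ Finset.range r, law s) / 2 := by ring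
  rw [e] at h1
  obtain ⟨c5, X5, hc5, hlow5⟩ := NSf.low5
  obtain ⟨c1, X1, hc1, hlow1⟩ := low_one
  filter_upwards [h1.eventually (lt_mem_nhds (show (∑ s ∈ Finset.range (r + 1), law s +
    ∑ s ∈ Finset.range r, law s) / 2 - ε < (∑ s ∈ Finset.range (r + 1), law s +
    ∑ s ∈ Finset.range r, law s) / 2 by linarith)), eventually_ge_atTop X5, eventually_ge_atTop X1,
    eventually_ge_atTop 1] with X hX hX5 hX1 hX2
  refine hX.le.trans ?_
  have hX0 : (0 : ℝ) < X := by exact_mod_cast hX2
  have hp5 : (0 : ℝ) < (count {D | D ∈ Family ∧ D.norm % 8 = 5} X : ℝ) := by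
    rw [cnt el_five]
    exact lt_of_lt_of_le (by positivity) (hlow5 X hX5)
  have hp1 : (0 : ℝ) < (count {D | D ∈ Family ∧ D.norm % 8 = 1} X : ℝ) := by
    rw [cnt el_one]
    exact lt_of_lt_of_le (by positivity) (hlow1 X hX1)
  rw [div_mul_div_cancel₀ hp5.ne', div_mul_div_cancel₀ hp1.ne', ← add_div]
  unfold proportion
  refine div_le_div_of_nonneg_right ?_ (Nat.cast_nonneg _)
  have h5 := count_ge (S := {D | D ∈ Family ∧ D.norm % 8 = 5}) (T := RankAtMost (2 * r)) (m := r + 1)
    (fun s hs D hD h => rank_mono (by omega) (rank_five hD.1 hD.2 h)) X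
  have h6 := count_ge (S := {D | D ∈ Family ∧ D.norm % 8 = 1}) (T := RankAtMost (2 * r)) (m := r)
    (fun s hs D hD h => rank_mono (by omega) (rank_all hD.1 h)) X
  have h7 := (Nat.add_le_add h5 h6).trans (count_add _ X)
  exact_mod_cast h7

end proof

open Pool.Agent.U695.XG in
/-- **Main theorem.** -/
theorem result :
    -- the numbers
    (0.4194 < c ∧ c < 0.4195) ∧ HasSum law 1 ∧
    (0.4194 < ∑ s ∈ Finset.range 1, law s ∧ 0.8388 < ∑ s ∈ Finset.range 2, law s ∧
      0.9786 < ∑ s ∈ Finset.range 3, law s ∧ 0.9985 < ∑ s ∈ Finset.range 4, law s) ∧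
    -- one twist
    (∀ D ∈ Family, D ≠ 1 → ∃ r : ℕ, Decomposes r D ∧ RankAtMost (2 * r + 2) D ∧
      (D.norm % 8 = 5 → RankAtMost (2 * r) D)) ∧
    -- the exact law, in the family and in the classes modulo 16
    (∀ r : ℕ, Tendsto (proportion Family (Decomposes r)) atTop (nhds (law r))) ∧
    (∀ a : ℕ, (a = 1 ∨ a = 5 ∨ a = 9 ∨ a = 13) → ∀ r : ℕ,
      Tendsto (proportion {D | D ∈ Family ∧ D.norm % 16 = a} (Decomposes r)) atTop (nhds (law r))) ∧
    -- the ranks in the family
    (∀ (r : ℕ) (ε : ℝ), 0 < ε → ∀ᶠ X : ℕ in atTop,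
      (∑ s ∈ Finset.range (r + 1), law s + ∑ s ∈ Finset.range r, law s) / 2 - ε ≤
        proportion Family (RankAtMost (2 * r)) X) ∧
    (∀ ε : ℝ, 0 < ε → ∃ R : ℕ, ∀ᶠ X : ℕ in atTop, 1 - ε ≤ proportion Family (RankAtMost R) X) ∧
    -- norms 5 modulo 8
    (∀ (r : ℕ) (ε : ℝ), 0 < ε → ∀ᶠ X : ℕ in atTop, ∑ s ∈ Finset.range (r + 1), law s - ε ≤
      proportion {D | D ∈ Family ∧ D.norm % 8 = 5} (RankAtMost (2 * r)) X) ∧
    -- all squarefree elements
    ∀ (r : ℕ) (ε : ℝ), 0 < ε → ∀ᶠ X : ℕ in atTop,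
      (∑ s ∈ Finset.range (r + 1), law s + ∑ s ∈ Finset.range r, law s) / 6 - ε ≤
        proportion {D | Squarefree D} (RankAtMost (2 * r)) X := by
  have hc : c = c2 := rfl
  have hb := t_C2.2
  have hc1 : 0.4194 < c := hc ▸ hb.2.2.1
  have hc2 : c < 0.4195 := hc ▸ hb.2.2.2
  have hsum : HasSum law 1 := Pool.Agent.U695.XH.SUMf.t_sum
  refine ⟨⟨hc1, hc2⟩, hsum, ?_, fun D hD hD1 => ?_,
    t_prop el_all Pool.Agent.U695.XR.Cls.low_all,
    fun a ha => t_prop (el_class a) (Pool.Agent.U695.XR.Cls.low_c ha), fun r ε hε => t_fam r hε,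
    fun ε hε => ?_, fun r ε hε => ?_, fun r ε hε => ?_⟩
  · have e0 : law 0 = c := by
      unfold law
      rw [Finset.prod_range_zero, div_one]
    have e1 : law 1 = c := by
      unfold law
      rw [Finset.prod_range_succ, Finset.prod_range_zero]
      norm_num
    have e2 : law 2 = c / 3 := by
      unfold law
      rw [Finset.prod_range_succ, Finset.prod_range_succ, Finset.prod_range_zero]
      norm_num
    have e3 : law 3 = c / 21 := by
      unfold law
      rw [Finset.prod_range_succ, Finset.prod_range_succ, Finset.prod_range_succ,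
        Finset.prod_range_zero]
      norm_num
    simp only [Finset.sum_range_succ, Finset.sum_range_zero, zero_add, e0, e1, e2, e3]
    norm_num at hc1 ⊢
    refine ⟨by linarith, by linarith, by linarith, by linarith⟩
  · have h1 := ps_iff.2 hD
    have hne : (Pool.Agent.Y699.PD D).Nonempty := by
      by_contra h3
      rw [Finset.not_nonempty_iff_eq_empty] at h3
      have h4 := h1.prod
      rw [h3, Finset.prod_empty] at h4
      exact hD1 h4.symm
    obtain ⟨r, hr⟩ := Pool.Agent.U695.XR.Dec.nS_succ hne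
    have h2 : Decomposes r D := (dec_iff h1 r).2 hr
    exact ⟨r, h2, rank_all hD h2, fun h5 => rank_five hD h5 h2⟩
  · have h1 := hsum.tendsto_sum_nat
    obtain ⟨r, hr⟩ := (h1.eventually
      (lt_mem_nhds (show (1 : ℝ) - ε / 2 < 1 by linarith))).exists_forall_of_atTop
    refine ⟨2 * r, ?_⟩
    filter_upwards [t_fam r (show 0 < ε / 2 by linarith)] with X hX
    have h3 := hr r le_rfl
    have h4 := hr (r + 1) (Nat.le_succ r)
    linarith
  · have h1 := t_sums el_five NSf.low5 (r + 1)
    filter_upwards [h1.eventually (lt_mem_nhds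
      (show ∑ s ∈ Finset.range (r + 1), law s - ε < ∑ s ∈ Finset.range (r + 1), law s by linarith))]
      with X hX
    refine hX.le.trans ?_
    unfold proportion
    refine div_le_div_of_nonneg_right ?_ (Nat.cast_nonneg _)
    exact_mod_cast count_ge (S := {D | D ∈ Family ∧ D.norm % 8 = 5}) (T := RankAtMost (2 * r))
      (m := r + 1) (fun s hs D hD h => rank_mono (by omega) (rank_five hD.1 hD.2 h)) X
  · have h1 := t_fam r hε
    have h2 : Tendsto (fun X : ℕ => (count Family X : ℝ) / (count {D | Squarefree D} X : ℝ)) atTop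
        (nhds (1 / 6)) := by
      refine Pool.Agent.U695.XR.Cls.share_all.congr fun X => ?_
      rw [card_SB, count_sqf]
    set L : ℝ := (∑ s ∈ Finset.range (r + 1), law s + ∑ s ∈ Finset.range r, law s) / 2 with hL
    have e : (∑ s ∈ Finset.range (r + 1), law s + ∑ s ∈ Finset.range r, law s) / 6 = L / 3 := by
      rw [hL]
      ring
    rw [e]
    have h3 : Tendsto (fun X : ℕ => (L - ε) * (2 * ((count Family X : ℝ) /
        (count {D | Squarefree D} X : ℝ)))) atTop (nhds ((L - ε) * (2 * (1 / 6)))) :=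
      (h2.const_mul 2).const_mul (L - ε)
    obtain ⟨c', X₀, hc', hlow⟩ := Pool.Agent.U695.XR.Cls.low_all
    filter_upwards [h1, h3.eventually (lt_mem_nhds
      (show L / 3 - ε < (L - ε) * (2 * (1 / 6)) by linarith)), eventually_ge_atTop X₀,
      eventually_ge_atTop 1] with X hX hX3 hX0 hX1
    refine hX3.le.trans ?_
    have hX2 : (0 : ℝ) < X := by exact_mod_cast hX1
    have hp : (0 : ℝ) < (count Family X : ℝ) := by
      rw [cnt el_all]
      exact lt_of_lt_of_le (by positivity) (hlow X hX0)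
    have h4 : (2 : ℝ) * (count {D | D ∈ Family ∧ RankAtMost (2 * r) D} X : ℝ) ≤
        (count {D | D ∈ {D | Squarefree D} ∧ RankAtMost (2 * r) D} X : ℝ) := by
      exact_mod_cast twice (2 * r) X
    unfold proportion at hX ⊢
    rw [le_div_iff₀ hp] at hX
    calc (L - ε) * (2 * ((count Family X : ℝ) / (count {D | Squarefree D} X : ℝ))) =
          2 * ((L - ε) * (count Family X : ℝ)) / (count {D | Squarefree D} X : ℝ) := by ring
      _ ≤ _ := div_le_div_of_nonneg_right (by linarith) (Nat.cast_nonneg _)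

end Pool.Agent.Results.MP_7cad78_nt.GaussianTwistRanks
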