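import Mathlib
import Pool.Agent.U214.GT.Asm
import Pool.Agent.U563.MM.Mq

/-!
# Ranks over multiquadratic fields in one-parameter families of elliptic curves

Let `A, B, D` be polynomials with integer coefficients of any degrees, `A B (A - B)` squarefree over
`ℚ`, and let `E_t : y² = x (x - A(t) D(t)) (x - B(t) D(t))`. Let `G 0, …, G (k - 1)` be nonzero
polynomials with integer coefficients, for instance constants, and let
`K_t = ℚ(√(G 0 (t)), …, √(G (k-1) (t)))`, a field of degree up to `2 ^ k`. Suppose that every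
irreducible factor over `ℚ` of `A B (A - B)` divides `D` and every `G i` to an even power. For every
`r` the `r`-th moment of `2 ^ rank E_t(K_t)` over `|t| ≤ X` is at most `C (1 + log X) ^ kap` with an
explicit exponent, which is `0` if `A` and `B` are constant.
-/

set_option autoImplicit false

namespace Pool.Agent.Results.MP_7cad78_nt.MultiquadraticFamilies

open Finset Polynomial

/-- the curve `y² = x (x - a) (x - b)` over the field `F` -/
def E (F : Type) [Field F] (a b : ℤ) : WeierstrassCurve F := ⟨0, -((a : F) + b), 0, (a : F) * b, 0⟩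

open Classical in
/-- the rank of the group of the points over `F` of `y² = x (x - a) (x - b)` -/
noncomputable def rank (F : Type) [Field F] (a b : ℤ) : ℕ :=
  Module.finrank ℤ (E F a b).toAffine.Point

/-- the subfield of `ℂ` generated by the square roots of the values `G i (t)` -/
noncomputable def K {k : ℕ} (G : Fin k → ℤ[X]) (t : ℤ) : IntermediateField ℚ ℂ :=
  IntermediateField.adjoin ℚ {z : ℂ | ∃ i, z ^ 2 = (((G i).eval t : ℤ) : ℂ)}

/-- `f` as a polynomial over `ℚ` -/
noncomputable def q (f : ℤ[X]) : ℚ[X] := f.map (Int.castRingHom ℚ)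

/-- the number of the irreducible factors of `f` over `ℚ` -/
noncomputable def n (f : ℤ[X]) : ℕ := (UniqueFactorizationMonoid.normalizedFactors (q f)).card

/-- the exponent: the largest of `0` and the three numbers
`(2 ^ r - 1) * (n F - (n G + n H) / 2 ^ r)`, `{F, G, H} = {A, B, A - B}` -/
noncomputable def kap (r : ℕ) (A B : ℤ[X]) : ℝ :=
  max 0 (max (((2 : ℝ) ^ r - 1) * (n A - ((n B : ℝ) + n (A - B)) / 2 ^ r))
    (max (((2 : ℝ) ^ r - 1) * (n B - ((n A : ℝ) + n (A - B)) / 2 ^ r))
      (((2 : ℝ) ^ r - 1) * (n (A - B) - ((n A : ℝ) + n B) / 2 ^ r))))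

section

open Pool.Agent.U563.MM
open Pool.Agent.W262.RK (EAB)

lemma E_eq (F : Type) [Field F] (a b c : ℤ) :
    E F (a * c) (b * c) = Pool.Agent.Y682.gc (-(a + b) * c) (a * b * c ^ 2) F := by
  unfold E Pool.Agent.Y682.gc
  congr 1
  · push_cast
    ring
  · push_cast
    ring

lemma rank_eq (F : Type) [Field F] [NumberField F] (a b c : ℤ) :
    rank F (a * c) (b * c) = RT (-(a + b)) (a * b) F c := by
  unfold rank RT Pool.Agent.TH841.NF.D.rk
  rw [← E_eq F a b c]

/-- the rank with a given decision procedure of the equality -/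
noncomputable def rkd (W : WeierstrassCurve ℚ) (d : DecidableEq ℚ) : ℕ :=
  letI := d
  Module.finrank ℤ W.toAffine.Point

lemma rank_rat (a b c : ℤ) :
    rank ℚ (a * c) (b * c) = Module.finrank ℤ (EAB (a * c) (b * c)).toAffine.Point := by
  have h1 : rank ℚ (a * c) (b * c) = rkd (EAB (a * c) (b * c)) (Classical.decEq ℚ) := rfl
  have h2 : rkd (EAB (a * c) (b * c)) inferInstance =
    Module.finrank ℤ (EAB (a * c) (b * c)).toAffine.Point := rfl
  rw [h1, ← h2]
  exact congrArg _ (Subsingleton.elim _ _)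

/-- a power of the sum is at most the sum of large powers -/
lemma pow_sum_le {ι : Type} (S : Finset ι) (hS : S.Nonempty) (f : ι → ℕ) (k : ℕ) :
    ((2 : ℝ) ^ (∑ i ∈ S, f i)) ^ k ≤ ∑ i ∈ S, ((2 : ℝ) ^ f i) ^ (k * S.card) := by
  obtain ⟨i0, hi0, hmax⟩ := S.exists_max_image f hS
  have h1 : ∑ i ∈ S, f i ≤ S.card * f i0 := by
    rw [← smul_eq_mul]
    exact sum_le_card_nsmul S f (f i0) hmax
  calc ((2 : ℝ) ^ (∑ i ∈ S, f i)) ^ k ≤ ((2 : ℝ) ^ (S.card * f i0)) ^ k :=
        pow_le_pow_left₀ (by positivity) (pow_le_pow_right₀ (by norm_num) h1) k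
    _ = ((2 : ℝ) ^ f i0) ^ (k * S.card) := by
        rw [← pow_mul, ← pow_mul]
        congr 1
        ring
    _ ≤ _ := single_le_sum (f := fun i => ((2 : ℝ) ^ f i) ^ (k * S.card))
        (fun i _ => by positivity) hi0

end

open Pool.Agent.U563.MM in
open Pool.Agent.W262.RK (EAB) in
/-- **All the moments of `2 ^ rank E_t(K_t)`** in one-parameter families of curves and fields. -/
theorem result (A B D : ℤ[X]) (hD : D ≠ 0) (hS : Squarefree (q (A * B * (A - B))))
    (hevD : ∀ P : ℚ[X], Irreducible P → P ∣ q (A * B * (A - B)) → Even (multiplicity P (q D)))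
    (k : ℕ) (G : Fin k → ℤ[X]) (hG : ∀ i, G i ≠ 0) (hev : ∀ i, ∀ P : ℚ[X], Irreducible P → P ∣ q (A * B * (A - B)) → Even (multiplicity P (q (G i))))
    (r : ℕ) : ∃ C : ℝ,
    (∀ X : ℕ, 1 ≤ X → ∑ t ∈ Icc (-(X : ℤ)) X,
      ((2 : ℝ) ^ rank (K G t) (A.eval t * D.eval t) (B.eval t * D.eval t)) ^ r ≤
        C * (X * (1 + Real.log X) ^ kap (r * 2 ^ k) A B)) ∧
    ∀ X : ℕ, 1 ≤ X → ∀ R : ℕ, (((Icc (-(X : ℤ)) X).filter
      (fun t => R ≤ rank (K G t) (A.eval t * D.eval t) (B.eval t * D.eval t))).card : ℝ) ≤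
        C / 2 ^ (r * R) * (X * (1 + Real.log X) ^ kap (r * 2 ^ k) A B) := by
  classical
  suffices hmain : ∃ C : ℝ, ∀ X : ℕ, 1 ≤ X → ∑ t ∈ Icc (-(X : ℤ)) X,
      ((2 : ℝ) ^ rank (K G t) (A.eval t * D.eval t) (B.eval t * D.eval t)) ^ r ≤
        C * (X * (1 + Real.log X) ^ kap (r * 2 ^ k) A B) by
    obtain ⟨C, hC⟩ := hmain
    refine ⟨C, fun X hX => hC X hX, fun X hX R => ?_⟩
    have h1 := hC X hX
    rw [div_mul_eq_mul_div, le_div_iff₀ (by positivity)]
    refine le_trans ?_ h1
    rw [← nsmul_eq_mul, ← sum_const]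
    refine (sum_le_sum fun t ht => ?_).trans (sum_le_sum_of_subset_of_nonneg (filter_subset _ _)
      fun t _ _ => by positivity)
    have h2 := (mem_filter.1 ht).2
    rw [← pow_mul, mul_comm r R]
    exact pow_le_pow_right₀ (by norm_num) (Nat.mul_le_mul_right r h2)
  -- nonzero polynomials
  have hABn : q (A * B * (A - B)) ≠ 0 := hS.ne_zero
  have hprod : A * B * (A - B) ≠ 0 := by
    rintro h0
    apply hABn
    rw [h0]
    simp [q]
  have hA : A ≠ 0 := fun h0 => hprod (by rw [h0]; ring)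
  have hB : B ≠ 0 := fun h0 => hprod (by rw [h0]; ring)
  have hAB : A - B ≠ 0 := fun h0 => hprod (by rw [h0]; ring)
  have hcard : (univ : Finset (Fin k)).powerset.card = 2 ^ k := by
    rw [card_powerset, card_univ, Fintype.card_fin]
  -- the field
  have hK : ∀ t, K G t = mqf (univ.image (fun i => (G i).eval t)) := by
    intro t
    unfold K mqf
    congr 1
    ext z
    simp only [Set.mem_setOf_eq, mem_image, mem_univ, true_and, exists_exists_eq_and]
  -- the twists
  set Q : Finset (Fin k) → ℤ → ℝ := fun T t =>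
    ((2 : ℝ) ^ Module.finrank ℤ (EAB (A.eval t * (D.eval t * ∏ i ∈ T, (G i).eval t))
      (B.eval t * (D.eval t * ∏ i ∈ T, (G i).eval t))).toAffine.Point) ^ (r * 2 ^ k) with hQ
  have hQ0 : ∀ T t, 0 ≤ Q T t := fun T t => by positivity
  have hQb : ∀ T : Finset (Fin k), ∃ C : ℝ, ∀ X : ℕ, 1 ≤ X →
      ∑ t ∈ Icc (-(X : ℤ)) X, Q T t ≤ C * (X * (1 + Real.log X) ^ kap (r * 2 ^ k) A B) := by
    intro T
    have hDT : D * ∏ i ∈ T, G i ≠ 0 := mul_ne_zero hD (prod_ne_zero_iff.2 fun i _ => hG i)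
    have hevT : ∀ P : ℚ[X], Irreducible P → P ∣ (A * B * (A - B)).map (Int.castRingHom ℚ) →
        Even (multiplicity P ((D * ∏ i ∈ T, G i).map (Int.castRingHom ℚ))) := by
      intro P hP hPd
      clear hDT
      rw [Polynomial.map_mul, Polynomial.map_prod]
      have hDn : D.map (Int.castRingHom ℚ) ≠ 0 :=
        (Polynomial.map_ne_zero_iff (Int.cast_injective)).2 hD
      have hne : ∀ i, (G i).map (Int.castRingHom ℚ) ≠ 0 := fun i =>
        (Polynomial.map_ne_zero_iff (Int.cast_injective)).2 (hG i)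
      induction T using Finset.induction_on with
      | empty =>
        rw [prod_empty, mul_one]
        exact hevD P hP hPd
      | insert i T hi ih =>
        rw [prod_insert hi, mul_left_comm, multiplicity_mul hP.prime
          (FiniteMultiplicity.of_prime_left hP.prime (mul_ne_zero (hne i)
            (mul_ne_zero hDn (prod_ne_zero_iff.2 fun j _ => hne j))))]
        exact (hev i P hP hPd).add ih
    obtain ⟨C, hC⟩ := Pool.Agent.U214.GT.fam_Q Pool.Agent.U214.GT.tr_QL hDT hS hevT
      (r := r * 2 ^ k) (e := kap (r * 2 ^ k) A B) (le_max_left _ _)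
      ((le_max_left _ _).trans (le_max_right _ _))
      ((le_max_left _ _).trans ((le_max_right _ _).trans (le_max_right _ _)))
      ((le_max_right _ _).trans ((le_max_right _ _).trans (le_max_right _ _)))
    refine ⟨C, fun X hX => le_trans (le_of_eq (sum_congr rfl fun t _ => ?_)) (hC X hX)⟩
    rw [hQ]
    simp only
    unfold Pool.Agent.U214.PT.tr
    rw [Polynomial.eval_mul, Polynomial.eval_prod]
  choose CT hCT using hQb
  set P : ℤ → ℝ := fun t => ((2 : ℝ) ^ rank (K G t) (A.eval t * D.eval t) (B.eval t * D.eval t)) ^ r with hP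
  have hP0 : ∀ t, 0 ≤ P t := fun t => by positivity
  -- the finitely many exceptional t
  set W : ℤ[X] := A * B * (A - B) * D * ∏ i, G i with hW
  have hW0 : W ≠ 0 := mul_ne_zero (mul_ne_zero hprod hD) (prod_ne_zero_iff.2 fun i _ => hG i)
  -- the pointwise bound
  have hpt : ∀ t, W.eval t ≠ 0 →
      P t ≤ ∑ T ∈ (univ : Finset (Fin k)).powerset, Q T t := by
    intro t ht
    rw [hW, eval_mul, eval_mul, eval_mul, eval_mul, eval_sub, eval_prod] at ht
    have hG' : ∀ i, (G i).eval t ≠ 0 := fun i =>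
      prod_ne_zero_iff.1 (right_ne_zero_of_mul ht) i (mem_univ i)
    have hD' : D.eval t ≠ 0 := right_ne_zero_of_mul (left_ne_zero_of_mul ht)
    have h3 := left_ne_zero_of_mul (left_ne_zero_of_mul ht)
    have hBt : A.eval t * B.eval t ≠ 0 := left_ne_zero_of_mul h3
    have hDt : (-(A.eval t + B.eval t)) ^ 2 - 4 * (A.eval t * B.eval t) ≠ 0 := by
      have : (-(A.eval t + B.eval t)) ^ 2 - 4 * (A.eval t * B.eval t) =
        (A.eval t - B.eval t) ^ 2 := by ring
      rw [this]
      exact pow_ne_zero 2 (right_ne_zero_of_mul h3)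
    have hnf : NumberField (K G t) := by
      rw [hK t]
      exact nf _
    have h1 := rank_le hBt hDt (fun i => (G i).eval t) hG' univ (K G t) (hK t) (D.eval t) hD'
    rw [← rank_eq (K G t) (A.eval t) (B.eval t) (D.eval t)] at h1
    have h2 : rank (K G t) (A.eval t * D.eval t) (B.eval t * D.eval t) ≤ ∑ T ∈ (univ : Finset (Fin k)).powerset,
        Module.finrank ℤ (EAB (A.eval t * (D.eval t * ∏ i ∈ T, (G i).eval t))
          (B.eval t * (D.eval t * ∏ i ∈ T, (G i).eval t))).toAffine.Point := by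
      refine h1.trans (le_of_eq (sum_congr rfl fun T _ => ?_))
      rw [← rank_eq ℚ (A.eval t) (B.eval t), rank_rat]
    calc P t ≤ ((2 : ℝ) ^ ∑ T ∈ (univ : Finset (Fin k)).powerset,
          Module.finrank ℤ (EAB (A.eval t * (D.eval t * ∏ i ∈ T, (G i).eval t))
          (B.eval t * (D.eval t * ∏ i ∈ T, (G i).eval t))).toAffine.Point) ^ r :=
          pow_le_pow_left₀ (by positivity) (pow_le_pow_right₀ (by norm_num) h2) r
      _ ≤ _ := by
          have h4 := pow_sum_le (univ : Finset (Fin k)).powerset ⟨∅, empty_mem_powerset _⟩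
            (fun T => Module.finrank ℤ (EAB (A.eval t * (D.eval t * ∏ i ∈ T, (G i).eval t))
              (B.eval t * (D.eval t * ∏ i ∈ T, (G i).eval t))).toAffine.Point) r
          rw [hcard] at h4
          exact h4
  set Z : Finset ℤ := W.roots.toFinset with hZ
  refine ⟨∑ t ∈ Z, P t + ∑ T ∈ (univ : Finset (Fin k)).powerset, CT T, fun X hX => ?_⟩
  have hXr : (1 : ℝ) ≤ X := by exact_mod_cast hX
  set Y : ℝ := (X : ℝ) * (1 + Real.log X) ^ kap (r * 2 ^ k) A B with hY
  have hY1 : 1 ≤ Y := by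
    have h5 : (1 : ℝ) ≤ (1 + Real.log X) ^ kap (r * 2 ^ k) A B :=
      Real.one_le_rpow (by linarith [Real.log_nonneg hXr]) (le_max_left _ _)
    calc (1 : ℝ) = 1 * 1 := (one_mul 1).symm
      _ ≤ _ := mul_le_mul hXr h5 zero_le_one (by linarith)
  have hbad : ∀ t ∈ Icc (-(X : ℤ)) X, P t ≤ (if t ∈ Z then P t else 0) +
      ∑ T ∈ (univ : Finset (Fin k)).powerset, Q T t := by
    intro t _
    have h0 : 0 ≤ ∑ T ∈ (univ : Finset (Fin k)).powerset, Q T t :=
      sum_nonneg fun T _ => hQ0 T t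
    by_cases ht : t ∈ Z
    · rw [if_pos ht]
      linarith
    · rw [if_neg ht, zero_add]
      refine hpt t fun h => ht ?_
      rw [hZ, Multiset.mem_toFinset, mem_roots hW0]
      exact h
  calc ∑ t ∈ Icc (-(X : ℤ)) X, P t
      ≤ ∑ t ∈ Icc (-(X : ℤ)) X, ((if t ∈ Z then P t else 0) +
        ∑ T ∈ (univ : Finset (Fin k)).powerset, Q T t) := sum_le_sum hbad
    _ = ∑ t ∈ Icc (-(X : ℤ)) X, (if t ∈ Z then P t else 0) +
        ∑ T ∈ (univ : Finset (Fin k)).powerset, ∑ t ∈ Icc (-(X : ℤ)) X, Q T t := by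
        rw [sum_add_distrib, sum_comm]
    _ ≤ ∑ t ∈ Z, P t +
        ∑ T ∈ (univ : Finset (Fin k)).powerset, CT T * Y := by
        refine add_le_add ?_ (sum_le_sum fun T _ => hCT T X hX)
        rw [← sum_filter]
        refine sum_le_sum_of_subset_of_nonneg ?_ (fun t _ _ => hP0 t)
        intro t ht
        exact (mem_filter.1 ht).2
    _ ≤ _ := by
        rw [← sum_mul, add_mul]
        have h6 : 0 ≤ ∑ t ∈ Z, P t := sum_nonneg fun t _ => hP0 t
        have h7 := le_mul_of_one_le_right h6 hY1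
        linarith

end Pool.Agent.Results.MP_7cad78_nt.MultiquadraticFamilies
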